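import Pool.Agent.Q75.HM.Stm

set_option autoImplicit false

/-!
# Project HM, job NU: numerics
-/

namespace Pool.Agent.Q164.HM

open Pool.Agent.Q75.HM

theorem nu_main {δ q0 k1 k2 b t τ : ℝ} (hδ : 0 < δ) (hq : 0 < q0) (hk : 0 ≤ k1)
    (hk2 : k2 = 1152 / (δ ^ 4 * q0 ^ 2) + 8 * k1 / δ + 384 / (δ ^ 3 * q0)) (hb : b ≤ δ / 32)
    (hτ : 0 < τ) (hτt : τ ≤ t) (htb : t + τ ≤ b) :
    (Qf q0 k1 k2 t ^ 2 + 1152 * τ ^ 2 / δ ^ 4) *
        ((Qf q0 k1 k2 t + 48 * τ / δ ^ 2) / Qf q0 k1 k2 (t - τ)) ^ (4 * τ / (δ - 2 * τ)) ≤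
      Qf q0 k1 k2 (t + τ) * Qf q0 k1 k2 (t - τ) := by
  have hk20 : 0 ≤ k2 := by
    rw [hk2]
    positivity
  have ht0 : 0 < t := lt_of_lt_of_le hτ hτt
  have hb0 : 0 < b := by linarith
  have hQ : ∀ s : ℝ, 0 < Qf q0 k1 k2 s := fun s => mul_pos hq (Real.exp_pos _)
  have hQt : q0 ≤ Qf q0 k1 k2 t := by
    unfold Qf
    have h1 : (1 : ℝ) ≤ Real.exp (k1 * t + k2 * t ^ 2) := by
      apply Real.one_le_exp
      positivity
    nlinarith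
  have e1 : Qf q0 k1 k2 (t + τ) * Qf q0 k1 k2 (t - τ) =
      Qf q0 k1 k2 t ^ 2 * Real.exp (2 * k2 * τ ^ 2) := by
    unfold Qf
    have h1 : Real.exp (k1 * (t + τ) + k2 * (t + τ) ^ 2) * Real.exp (k1 * (t - τ) + k2 * (t - τ) ^ 2) =
        Real.exp (k1 * t + k2 * t ^ 2) * Real.exp (k1 * t + k2 * t ^ 2) * Real.exp (2 * k2 * τ ^ 2) := by
      rw [← Real.exp_add, ← Real.exp_add, ← Real.exp_add]
      congr 1
      ring
    linear_combination q0 ^ 2 * h1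
  set Qt := Qf q0 k1 k2 t with hQtd
  set x1 : ℝ := 1152 * τ ^ 2 / (δ ^ 4 * q0 ^ 2) with hx1
  have hx10 : 0 ≤ x1 := by positivity
  have e2 : Qt ^ 2 + 1152 * τ ^ 2 / δ ^ 4 ≤ Qt ^ 2 * Real.exp x1 := by
    have h1 := Real.add_one_le_exp x1
    have h2 : 1152 * τ ^ 2 / δ ^ 4 = q0 ^ 2 * x1 := by
      rw [hx1]
      field_simp
    rw [h2]
    have h3 : q0 ^ 2 ≤ Qt ^ 2 := by nlinarith
    have h4 : q0 ^ 2 * x1 ≤ Qt ^ 2 * x1 := mul_le_mul_of_nonneg_right h3 hx10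
    nlinarith [mul_le_mul_of_nonneg_left h1 (sq_nonneg Qt)]
  set M : ℝ := k1 + 2 * k2 * b + 48 / (δ ^ 2 * q0) with hM
  have hM0 : 0 ≤ M := by
    rw [hM]
    positivity
  have e3 : (Qt + 48 * τ / δ ^ 2) / Qf q0 k1 k2 (t - τ) ≤ Real.exp (M * τ) := by
    rw [div_le_iff₀ (hQ _)]
    have h1 : Real.exp (M * τ) = Real.exp ((k1 + 2 * k2 * b) * τ) * Real.exp (48 * τ / (δ ^ 2 * q0)) := by
      rw [← Real.exp_add]
      congr 1
      rw [hM]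
      ring
    have h2 : Qt ≤ Real.exp ((k1 + 2 * k2 * b) * τ) * Qf q0 k1 k2 (t - τ) := by
      rw [hQtd]
      unfold Qf
      have h3 : Real.exp (k1 * t + k2 * t ^ 2) ≤
          Real.exp ((k1 + 2 * k2 * b) * τ) * Real.exp (k1 * (t - τ) + k2 * (t - τ) ^ 2) := by
        rw [← Real.exp_add]
        apply Real.exp_le_exp.2
        have h4 : k2 * (2 * t * τ - τ ^ 2) ≤ k2 * (2 * b * τ) := by
          apply mul_le_mul_of_nonneg_left _ hk20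
          nlinarith [sq_nonneg τ]
        nlinarith
      nlinarith [mul_le_mul_of_nonneg_left h3 hq.le]
    have h5 := Real.add_one_le_exp (48 * τ / (δ ^ 2 * q0))
    have h6 : 48 * τ / δ ^ 2 = q0 * (48 * τ / (δ ^ 2 * q0)) := by
      field_simp
    have h7 : 0 ≤ 48 * τ / (δ ^ 2 * q0) := by positivity
    rw [h1, h6]
    have h8 : q0 * (48 * τ / (δ ^ 2 * q0)) ≤ Qt * (48 * τ / (δ ^ 2 * q0)) :=
      mul_le_mul_of_nonneg_right hQt h7
    have h9 : Qt * (48 * τ / (δ ^ 2 * q0) + 1) ≤ Qt * Real.exp (48 * τ / (δ ^ 2 * q0)) :=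
      mul_le_mul_of_nonneg_left h5 (hq.le.trans hQt)
    have h10 : Qt * Real.exp (48 * τ / (δ ^ 2 * q0)) ≤
        Real.exp ((k1 + 2 * k2 * b) * τ) * Qf q0 k1 k2 (t - τ) * Real.exp (48 * τ / (δ ^ 2 * q0)) :=
      mul_le_mul_of_nonneg_right h2 (Real.exp_pos _).le
    nlinarith
  have hδτ : δ / 2 ≤ δ - 2 * τ := by linarith
  have hpos : 0 < δ - 2 * τ := by linarith
  have e4 : ((Qt + 48 * τ / δ ^ 2) / Qf q0 k1 k2 (t - τ)) ^ (4 * τ / (δ - 2 * τ)) ≤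
      Real.exp (8 * M * τ ^ 2 / δ) := by
    have h1 : 0 ≤ (Qt + 48 * τ / δ ^ 2) / Qf q0 k1 k2 (t - τ) := by
      apply div_nonneg _ (hQ _).le
      have : 0 < Qt := lt_of_lt_of_le hq hQt
      positivity
    have h2 : 0 ≤ 4 * τ / (δ - 2 * τ) := by positivity
    refine (Real.rpow_le_rpow h1 e3 h2).trans ?_
    rw [← Real.exp_mul]
    apply Real.exp_le_exp.2
    have h3 : 4 * τ / (δ - 2 * τ) ≤ 8 * τ / δ := by
      rw [div_le_div_iff₀ hpos hδ]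
      nlinarith
    have h4 : M * τ * (4 * τ / (δ - 2 * τ)) ≤ M * τ * (8 * τ / δ) :=
      mul_le_mul_of_nonneg_left h3 (by positivity)
    calc M * τ * (4 * τ / (δ - 2 * τ)) ≤ M * τ * (8 * τ / δ) := h4
      _ = 8 * M * τ ^ 2 / δ := by ring
  have e5 : x1 + 8 * M * τ ^ 2 / δ ≤ 2 * k2 * τ ^ 2 := by
    have h1 : x1 + 8 * M * τ ^ 2 / δ = (k2 + 16 * k2 * b / δ) * τ ^ 2 := by
      rw [hx1, hM]
      nth_rewrite 2 [hk2]
      field_simp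
      ring
    rw [h1]
    apply mul_le_mul_of_nonneg_right _ (sq_nonneg τ)
    have h2 : 16 * k2 * b / δ ≤ k2 := by
      rw [div_le_iff₀ hδ]
      nlinarith [mul_le_mul_of_nonneg_left hb hk20]
    linarith
  rw [e1]
  have hp4 : 0 ≤ ((Qt + 48 * τ / δ ^ 2) / Qf q0 k1 k2 (t - τ)) ^ (4 * τ / (δ - 2 * τ)) := by
    apply Real.rpow_nonneg
    apply div_nonneg _ (hQ _).le
    have : 0 < Qt := lt_of_lt_of_le hq hQt
    positivity
  calc (Qt ^ 2 + 1152 * τ ^ 2 / δ ^ 4) *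
        ((Qt + 48 * τ / δ ^ 2) / Qf q0 k1 k2 (t - τ)) ^ (4 * τ / (δ - 2 * τ))
      ≤ (Qt ^ 2 * Real.exp x1) * Real.exp (8 * M * τ ^ 2 / δ) :=
        mul_le_mul e2 e4 hp4 (by positivity)
    _ = Qt ^ 2 * Real.exp (x1 + 8 * M * τ ^ 2 / δ) := by
        rw [Real.exp_add]
        ring
    _ ≤ Qt ^ 2 * Real.exp (2 * k2 * τ ^ 2) :=
        mul_le_mul_of_nonneg_left (Real.exp_le_exp.2 e5) (sq_nonneg _)

theorem t_NU : S_NU := by
  intro δ q0 k1 B hδ hq hk hB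
  obtain ⟨k2, hk2⟩ : ∃ k2 : ℝ, k2 = 1152 / (δ ^ 4 * q0 ^ 2) + 8 * k1 / δ + 384 / (δ ^ 3 * q0) := ⟨_, rfl⟩
  have hk20 : 0 ≤ k2 := by
    rw [hk2]
    positivity
  have hl : 0 < Real.log 2 := Real.log_pos (by norm_num)
  have hl1 : 0 < Real.log 2 / (k1 + k2 + 1) := by positivity
  obtain ⟨b, hb⟩ : ∃ b : ℝ, b = min B (min (δ / 32) (min 1 (Real.log 2 / (k1 + k2 + 1)))) := ⟨_, rfl⟩
  have hb0 : 0 < b := by
    rw [hb]
    exact lt_min hB (lt_min (by positivity) (lt_min one_pos hl1))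
  have hb1 : b ≤ B := hb ▸ min_le_left _ _
  have hb2 : b ≤ δ / 32 := hb ▸ (min_le_right _ _).trans (min_le_left _ _)
  have hb3 : b ≤ 1 := hb ▸ (min_le_right _ _).trans ((min_le_right _ _).trans (min_le_left _ _))
  have hb4 : b ≤ Real.log 2 / (k1 + k2 + 1) :=
    hb ▸ (min_le_right _ _).trans ((min_le_right _ _).trans (min_le_right _ _))
  refine ⟨k2, b, hk20, hb0, hb1, by linarith, ?_, ?_⟩
  · intro t ht htb
    unfold Qf
    have h1 : k1 * t + k2 * t ^ 2 ≤ Real.log 2 := by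
      rw [le_div_iff₀ (by positivity)] at hb4
      have h2 : t ^ 2 ≤ t := by nlinarith
      have h3 : k2 * t ^ 2 ≤ k2 * t := mul_le_mul_of_nonneg_left h2 hk20
      nlinarith
    have h4 : Real.exp (k1 * t + k2 * t ^ 2) ≤ 2 := by
      calc Real.exp (k1 * t + k2 * t ^ 2) ≤ Real.exp (Real.log 2) := Real.exp_le_exp.2 h1
        _ = 2 := Real.exp_log (by norm_num)
    nlinarith
  · intro t τ hτ hτt htb
    exact nu_main hδ hq hk hk2 hb2 hτ hτt htb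

end Pool.Agent.Q164.HM
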