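import Pool.Agent.Q75.HM.Stm

set_option autoImplicit false

/-!
# Project HM, job SM: supermodularity of Green functions
-/

namespace Pool.Agent.Q164.HM

open Complex Set Metric Filter Topology Pool.Agent.Q75.HM

theorem getRM {Ω : Set ℂ} (hΩ : Dm Ω) {p : ℂ} (hp : p ∈ Ω) :
    ∃ φ : ℂ → ℂ, RM Ω p φ ∧ ∀ ρ : ℝ, ρ < 1 → IsCompact {w | w ∈ Ω ∧ ‖φ w‖ ≤ ρ} := by
  obtain ⟨h1, h2, h3⟩ := hΩ
  obtain ⟨g, φ, g1, g2, g3, g4, f1, f2, f3, f4⟩ := Pool.Agent.Helper405.Riemann.riemann_inv h1 h2 h3 hp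
  refine ⟨φ, ⟨f1, ⟨f2, ?_, ?_⟩, ?_, ?_⟩, ?_⟩
  · intro x hx y hy hxy
    rw [← f3 x hx, ← f3 y hy, hxy]
  · intro y hy
    exact ⟨g y, g2.mapsTo hy, f4 y hy⟩
  · intro z hz h0
    have e1 : HasDerivAt φ (deriv φ z) z := (f1.differentiableAt (h1.mem_nhds hz)).hasDerivAt
    have e2 : HasDerivAt g (deriv g (φ z)) (φ z) :=
      (g1.differentiableAt (isOpen_ball.mem_nhds (f2 hz))).hasDerivAt
    have e3 := e2.comp z e1
    have e4 : HasDerivAt (g ∘ φ) 1 z := by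
      refine (hasDerivAt_id z).congr_of_eventuallyEq ?_
      filter_upwards [h1.mem_nhds hz] with w hw
      exact f3 w hw
    have e5 := e3.unique e4
    rw [h0, mul_zero] at e5
    exact zero_ne_one e5
  · rw [← g4]
    exact f4 0 (mem_ball_self one_pos)
  · intro ρ hρ
    have hs : closedBall (0 : ℂ) ρ ⊆ ball 0 1 := closedBall_subset_ball hρ
    have e1 : {w | w ∈ Ω ∧ ‖φ w‖ ≤ ρ} = g '' closedBall 0 ρ := by
      ext w
      constructor
      · rintro ⟨hw, hw2⟩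
        exact ⟨φ w, by simpa using hw2, f3 w hw⟩
      · rintro ⟨y, hy, rfl⟩
        refine ⟨g2.mapsTo (hs hy), ?_⟩
        rw [f4 y (hs hy)]
        simpa using hy
    rw [e1]
    exact (isCompact_closedBall 0 ρ).image_of_continuousOn (g1.continuousOn.mono hs)

theorem norm_ds {φ : ℂ → ℂ} {p w : ℂ} (h0 : φ p = 0) : ‖w - p‖ * ‖dslope φ p w‖ = ‖φ w‖ := by
  have h := sub_smul_dslope φ p w
  rw [h0, sub_zero] at h
  rw [← norm_smul, h]

/-- the bound outside a compact set -/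
theorem out {u v a b r ρ : ℝ} (hu : 0 < u) (_hv : 0 < v) (ha : 0 < a) (hb : 0 < b) (hr : 0 < r) (hρ : 0 < ρ)
    (h1 : u ≤ b) (h2 : r * v < 1) (h3 : ρ < r * a) : u * v / (a * b) ≤ 1 / ρ := by
  rw [div_le_div_iff₀ (mul_pos ha hb) hρ, one_mul]
  have h4 : v * ρ ≤ a := by
    have h5 : r * (v * ρ) ≤ r * a := by nlinarith
    exact le_of_mul_le_mul_left h5 hr
  nlinarith [mul_le_mul h4 h1 hu.le ha.le]

theorem t_SM (hQB : S_QB) : S_SM := by
  intro U V A B p z hU hV hA hB hAU hBU hABV hp hz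
  obtain ⟨fU, rU, -⟩ := getRM hU (hAU hp.1)
  obtain ⟨fV, rV, -⟩ := getRM hV (hABV hp)
  obtain ⟨fA, rA, kA⟩ := getRM hA hp.1
  obtain ⟨fB, rB, kB⟩ := getRM hB hp.2
  have oW : IsOpen (A ∩ B) := hA.1.inter hB.1
  have vU : ∀ w ∈ A ∩ B, qn U p w = ‖dslope fU p w‖ := fun w hw =>
    (hQB U p w hU (hAU hp.1) (hAU hw.1)).1 fU rU
  have vV : ∀ w ∈ A ∩ B, qn V p w = ‖dslope fV p w‖ := fun w hw =>
    (hQB V p w hV (hABV hp) (hABV hw)).1 fV rV
  have vA : ∀ w ∈ A ∩ B, qn A p w = ‖dslope fA p w‖ := fun w hw =>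
    (hQB A p w hA hp.1 hw.1).1 fA rA
  have vB : ∀ w ∈ A ∩ B, qn B p w = ‖dslope fB p w‖ := fun w hw =>
    (hQB B p w hB hp.2 hw.2).1 fB rB
  have pU : ∀ w ∈ A ∩ B, 0 < qn U p w := fun w hw => (hQB U p w hU (hAU hp.1) (hAU hw.1)).2.1
  have pV : ∀ w ∈ A ∩ B, 0 < qn V p w := fun w hw => (hQB V p w hV (hABV hp) (hABV hw)).2.1
  have pA : ∀ w ∈ A ∩ B, 0 < qn A p w := fun w hw => (hQB A p w hA hp.1 hw.1).2.1
  have pB : ∀ w ∈ A ∩ B, 0 < qn B p w := fun w hw => (hQB B p w hB hp.2 hw.2).2.1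
  set h : ℂ → ℂ := fun w => dslope fU p w * dslope fV p w / (dslope fA p w * dslope fB p w) with hh
  have nh : ∀ w ∈ A ∩ B, ‖h w‖ = qn U p w * qn V p w / (qn A p w * qn B p w) := by
    intro w hw
    rw [hh]
    simp only [norm_div, norm_mul]
    rw [vU w hw, vV w hw, vA w hw, vB w hw]
  have dh : DifferentiableOn ℂ h (A ∩ B) := by
    have n0 : A ∩ B ∈ 𝓝 p := oW.mem_nhds hp
    have d1 : DifferentiableOn ℂ (dslope fU p) (A ∩ B) :=
      (Complex.differentiableOn_dslope n0).2 (rU.1.mono fun w hw => hAU hw.1)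
    have d2 : DifferentiableOn ℂ (dslope fV p) (A ∩ B) :=
      (Complex.differentiableOn_dslope n0).2 (rV.1.mono hABV)
    have d3 : DifferentiableOn ℂ (dslope fA p) (A ∩ B) :=
      (Complex.differentiableOn_dslope n0).2 (rA.1.mono inter_subset_left)
    have d4 : DifferentiableOn ℂ (dslope fB p) (A ∩ B) :=
      (Complex.differentiableOn_dslope n0).2 (rB.1.mono inter_subset_right)
    refine (d1.mul d2).div (d3.mul d4) ?_
    intro w hw
    have e1 := pA w hw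
    have e2 := pB w hw
    rw [vA w hw] at e1
    rw [vB w hw] at e2
    exact mul_ne_zero (norm_pos_iff.1 e1) (norm_pos_iff.1 e2)
  have key : ∀ ρ : ℝ, 0 < ρ → ρ < 1 → ‖h z‖ ≤ 1 / ρ := by
    intro ρ hρ hρ1
    set K : Set ℂ := {w | w ∈ A ∧ ‖fA w‖ ≤ ρ} ∩ {w | w ∈ B ∧ ‖fB w‖ ≤ ρ} with hK
    have cK : IsCompact K := (kA ρ hρ1).inter (kB ρ hρ1)
    have sK : K ⊆ A ∩ B := fun w hw => ⟨hw.1.1, hw.2.1⟩
    have pK : p ∈ K := by
      refine ⟨⟨hp.1, ?_⟩, ⟨hp.2, ?_⟩⟩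
      · rw [rA.2.2.2, norm_zero]
        exact hρ.le
      · rw [rB.2.2.2, norm_zero]
        exact hρ.le
    have bd : ∀ w ∈ A ∩ B, w ∉ K → ‖h w‖ ≤ 1 / ρ := by
      intro w hw hwK
      have hwp : w ≠ p := fun e => hwK (e ▸ pK)
      have hr : 0 < ‖w - p‖ := norm_pos_iff.2 (sub_ne_zero.2 hwp)
      have hv1 : ‖w - p‖ * qn V p w < 1 := (hQB V p w hV (hABV hp) (hABV hw)).2.2.2.2
      rw [nh w hw]
      by_cases hwA : ‖fA w‖ ≤ ρ
      · have hwB : ρ < ‖fB w‖ := by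
          by_contra hc
          exact hwK ⟨⟨hw.1, hwA⟩, ⟨hw.2, not_lt.1 hc⟩⟩
        rw [← norm_ds (p := p) rB.2.2.2, ← vB w hw] at hwB
        have hm := (hQB A p w hA hp.1 hw.1).2.2.1 U hAU
        rw [mul_comm (qn A p w)]
        exact out (pU w hw) (pV w hw) (pB w hw) (pA w hw) hr hρ hm hv1 hwB
      · have hwA' : ρ < ‖fA w‖ := not_le.1 hwA
        rw [← norm_ds (p := p) rA.2.2.2, ← vA w hw] at hwA'
        have hm := (hQB B p w hB hp.2 hw.2).2.2.1 U hBU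
        exact out (pU w hw) (pV w hw) (pA w hw) (pB w hw) hr hρ hm hv1 hwA'
    by_cases hzK : z ∈ K
    · obtain ⟨O, o1, o2, o3, o4⟩ := exists_open_between_and_isCompact_closure cK oW sK
      have hb : Bornology.IsBounded O := o4.isBounded.subset subset_closure
      refine Complex.norm_le_of_forall_mem_frontier_norm_le hb (dh.mono o3).diffContOnCl ?_
        (subset_closure (o2 hzK))
      intro w hw
      refine bd w (o3 hw.1) fun hwK => ?_
      exact hw.2 (by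
        rw [o1.interior_eq]
        exact o2 hwK)
    · exact bd z hz hzK
  rw [nh z hz] at key
  set x := qn U p z * qn V p z with hx
  set y := qn A p z * qn B p z with hy
  have hx0 : 0 < x := mul_pos (pU z hz) (pV z hz)
  have hy0 : 0 < y := mul_pos (pA z hz) (pB z hz)
  by_contra hc
  have hc' : y < x := not_le.1 hc
  have h1 : y / x < 1 := (div_lt_one hx0).2 hc'
  have h2 : 0 < y / x := div_pos hy0 hx0
  have h3 := key ((y / x + 1) / 2) (by linarith) (by linarith)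
  rw [div_le_div_iff₀ hy0 (by linarith), one_mul] at h3
  have h4 : x * ((y / x + 1) / 2) = (y + x) / 2 := by
    field_simp
  rw [h4] at h3
  linarith

end Pool.Agent.Q164.HM
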